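import Mathlib

namespace Pool.Agent.Results.MP_118fda_co.Orientation

variable {V : Type}

/-- The generalized Mycielski graph `M_r (G)`; level `i : Fin r` stands for level `i + 1`, and
`none` is the vertex `z`. -/
def myc (G : SimpleGraph V) (r : ℕ) : SimpleGraph (Option (V × Fin r)) :=
  SimpleGraph.fromRel fun a b =>
    match a, b with
    | some x, some y => G.Adj x.1 y.1 ∧ ((x.2.val = 0 ∧ y.2.val = 0) ∨ y.2.val = x.2.val + 1)
    | some x, none => x.2.val + 1 = r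
    | none, _ => False

/-- `D` is an orientation of `G`: each edge gets exactly one direction. -/
def IsOrientation (G : SimpleGraph V) (D : V → V → Prop) : Prop :=
  (∀ a b, D a b → G.Adj a b) ∧ ∀ a b, G.Adj a b → (D a b ↔ ¬ D b a)

/-- `c` lists the vertices of a cycle of length `L` of `G` in cyclic order. -/
def IsCyc (G : SimpleGraph V) (L : ℕ) (c : ZMod L → V) : Prop :=
  3 ≤ L ∧ Function.Injective c ∧ ∀ i, G.Adj (c i) (c (i + 1))

/-- A shortest odd cycle. -/
def IsShortestOdd (G : SimpleGraph V) (L : ℕ) (c : ZMod L → V) : Prop :=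
  Odd L ∧ IsCyc G L c ∧ ∀ L' c', Odd L' → IsCyc G L' c' → L ≤ L'

/-- All vertices of the cycle, with at most one exception, are sources or sinks in it. -/
def Alternating (D : V → V → Prop) {L : ℕ} (c : ZMod L → V) : Prop :=
  ∃ e, ∀ i, i ≠ e → (D (c i) (c (i - 1)) ∧ D (c i) (c (i + 1))) ∨
    (D (c (i - 1)) (c i) ∧ D (c (i + 1)) (c i))

theorem mono {L : ℕ} (hL : Odd L) (f : ZMod L → Prop) : ∃ i, (f i ↔ f (i + 1)) := by
  by_contra h
  push Not at h
  have : ∀ n : ℕ, (f (n : ZMod L) ↔ (f 0 ↔ Even n)) := by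
    intro n
    induction n with
    | zero => simp
    | succ n ih =>
      have := h n
      rw [Nat.cast_succ, Nat.even_add_one]
      tauto
  have h1 := this L
  rw [ZMod.natCast_self, ← Nat.not_odd_iff_even] at h1
  tauto

theorem abstr [Finite V] (G : SimpleGraph V) (g : ℕ) [NeZero g] (χ : ZMod g → V → Prop)
    (hχ : ∀ a b, G.Adj a b → ∃ s, ∀ t, (χ t a ↔ χ t b) → t = s) :
    ∃ D, IsOrientation G D ∧ ∀ L c, Odd L → L ≤ g → IsCyc G L c → Alternating D c := by
  classical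
  obtain ⟨e, he⟩ := Countable.exists_injective_nat V
  refine ⟨fun a b => G.Adj a b ∧ ((χ 0 a ∧ ¬ χ 0 b) ∨ ((χ 0 a ↔ χ 0 b) ∧ e a < e b)),
    ⟨fun a b h => h.1, fun a b h => ?_⟩, fun L c hL hg hc => ?_⟩
  · have h1 : e a ≠ e b := he.ne h.ne
    have h2 : e b < e a ↔ ¬ e a < e b := by omega
    simp only [h, h.symm, true_and, h2]
    tauto
  haveI : NeZero L := ⟨by have := hc.1; omega⟩
  choose I hI using fun s => mono hL fun i => χ s (c i)
  have uniq : ∀ s t i, (χ s (c i) ↔ χ s (c (i + 1))) → (χ t (c i) ↔ χ t (c (i + 1))) → s = t :=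
    fun s t i h1 h2 => by
      obtain ⟨u, hu⟩ := hχ _ _ (hc.2.2 i)
      rw [hu s h1, hu t h2]
  have hinj : Function.Injective I := fun s t h => uniq s t _ (hI s) (h ▸ hI t)
  have hsurj : Function.Surjective I := ((Fintype.bijective_iff_injective_and_card I).2 ⟨hinj,
    le_antisymm (Fintype.card_le_of_injective I hinj) (by simpa using hg)⟩).2
  have h1 : ∀ i, i ≠ I 0 → ¬ (χ 0 (c i) ↔ χ 0 (c (i + 1))) := fun i hi h => by
    obtain ⟨s, rfl⟩ := hsurj i
    exact hi (by rw [uniq 0 s _ h (hI s)])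
  have ha : ∀ i, G.Adj (c i) (c (i - 1)) := fun i => by
    have := (hc.2.2 (i - 1)).symm
    rwa [sub_add_cancel] at this
  have h0 : (1 : ZMod L) ≠ 0 := by
    have := hc.1
    haveI : Fact (1 < L) := ⟨by omega⟩
    exact one_ne_zero
  have h2 : ∀ i, i ≠ I 0 + 1 → ¬ (χ 0 (c (i - 1)) ↔ χ 0 (c i)) := fun i hi => by
    have := h1 (i - 1) fun e => hi (by rw [← e, sub_add_cancel])
    rwa [sub_add_cancel] at this
  have h3 : e (c (I 0)) ≠ e (c (I 0 + 1)) := he.ne (hc.2.2 _).ne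
  have h4 := hI 0
  refine ⟨if (χ 0 (c (I 0)) ↔ e (c (I 0)) < e (c (I 0 + 1))) then I 0 + 1 else I 0,
    fun i hi => ?_⟩
  simp only [ha i, (ha i).symm, hc.2.2 i, (hc.2.2 i).symm, true_and]
  by_cases e1 : i = I 0
  · subst e1
    have h5 := h2 (I 0) (by simpa using h0)
    have h6 : e (c (I 0 + 1)) < e (c (I 0)) ↔ ¬ e (c (I 0)) < e (c (I 0 + 1)) := by omega
    have h7 : (χ 0 (c (I 0)) ↔ e (c (I 0)) < e (c (I 0 + 1))) := by
      by_contra h
      exact hi (if_neg h).symm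
    rw [h6]
    tauto
  by_cases e2 : i = I 0 + 1
  · subst e2
    have h5 := h1 _ e1
    have h6 : e (c (I 0 + 1)) < e (c (I 0)) ↔ ¬ e (c (I 0)) < e (c (I 0 + 1)) := by omega
    have h7 : ¬ (χ 0 (c (I 0)) ↔ e (c (I 0)) < e (c (I 0 + 1))) := fun h => hi (if_pos h).symm
    rw [add_sub_cancel_right, h6]
    tauto
  · have h5 := h1 i e1
    have h6 := h2 i e2
    tauto

def DD {g : ℕ} (u : ZMod g) (j : ℕ) (s : ZMod g) : Prop := ∃ t : ℕ, t ≤ j ∧ s = u - j + 2 * t

theorem up {g : ℕ} (u v : ZMod g) (h : u = v + 1 ∨ v = u + 1) (j : ℕ) :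
    ∃ s, ∀ t, ((DD u j t ↔ Odd j) ↔ (DD v (j + 1) t ↔ Odd (j + 1))) → t = s := by
  rw [Nat.odd_add_one]
  rcases h with rfl | rfl
  · refine ⟨v - j - 1, fun s hs => ?_⟩
    have h1 : DD (v + 1) j s → DD v (j + 1) s := by
      rintro ⟨t, h1, rfl⟩
      exact ⟨t + 1, by omega, by push_cast; ring⟩
    obtain ⟨h2, t, h3, rfl⟩ : ¬ DD (v + 1) j s ∧ DD v (j + 1) s := by tauto
    rcases t with _ | t
    · push_cast; ring
    · exact absurd ⟨t, by omega, by push_cast; ring⟩ h2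
  · refine ⟨u + j + 2, fun s hs => ?_⟩
    have h1 : DD u j s → DD (u + 1) (j + 1) s := by
      rintro ⟨t, h1, rfl⟩
      exact ⟨t, by omega, by push_cast; ring⟩
    obtain ⟨h2, t, h3, rfl⟩ : ¬ DD u j s ∧ DD (u + 1) (j + 1) s := by tauto
    rcases h3.eq_or_lt with rfl | h4
    · push_cast; ring
    · exact absurd ⟨t, by omega, by push_cast; ring⟩ h2

theorem flat' (j : ℕ) (u : ZMod (2 * j + 3)) :
    ∃ s, ∀ t, (DD u j t ↔ DD (u + 1) j t) → t = s := by
  refine ⟨u - j + (2 * j + 2 : ℕ), fun s hs => ?_⟩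
  have h1 : ¬ (DD u j s ∧ DD (u + 1) j s) := by
    rintro ⟨⟨t, h1, rfl⟩, t', h2, h3⟩
    have h4 : ((2 * t : ℕ) : ZMod (2 * j + 3)) = (2 * t' + 1 : ℕ) := by
      push_cast
      linear_combination h3
    rw [ZMod.natCast_eq_natCast_iff', Nat.mod_eq_of_lt (by omega), Nat.mod_eq_of_lt (by omega)]
      at h4
    omega
  obtain ⟨n, h3, h2⟩ : ∃ n : ℕ, n < 2 * j + 3 ∧ s = u - j + n :=
    ⟨(s - u + (j : ZMod (2 * j + 3))).val, ZMod.val_lt _, by rw [ZMod.natCast_zmod_val]; ring⟩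
  rcases Nat.even_or_odd' n with ⟨t, rfl | rfl⟩
  · by_cases h4 : t ≤ j
    · have : DD u j s := ⟨t, h4, by rw [h2]; push_cast; ring⟩
      tauto
    · rw [h2, show t = j + 1 by omega]
      rfl
  · have : DD (u + 1) j s := ⟨t, by omega, by rw [h2]; push_cast; ring⟩
    tauto

theorem flat (j : ℕ) (u v : ZMod (2 * j + 3)) (h : u = v + 1 ∨ v = u + 1) :
    ∃ s, ∀ t, ((DD u j t ↔ Odd j) ↔ (DD v j t ↔ Odd j)) → t = s := by
  rcases h with rfl | rfl
  · obtain ⟨s, hs⟩ := flat' j v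
    exact ⟨s, fun t ht => hs t (by tauto)⟩
  · obtain ⟨s, hs⟩ := flat' j u
    exact ⟨s, fun t ht => hs t (by tauto)⟩

theorem cyc_adj {k : ℕ} (hk : 1 ≤ k) (u v : Fin (2 * k + 1)) :
    (SimpleGraph.cycleGraph (2 * k + 1)).Adj u v ↔ u.val = v.val + 1 ∨ v.val = u.val + 1 ∨
      (u.val = 0 ∧ v.val = 2 * k) ∨ (v.val = 0 ∧ u.val = 2 * k) := by
  have hu := u.2
  have hv := v.2
  rw [SimpleGraph.cycleGraph_adj']
  rcases lt_trichotomy u v with h | h | h
  · rw [Fin.coe_sub_iff_lt.2 h, Fin.coe_sub_iff_le.2 h.le]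
    have : u.val < v.val := h
    omega
  · subst h
    rw [sub_self, Fin.val_zero]
    omega
  · rw [Fin.coe_sub_iff_lt.2 h, Fin.coe_sub_iff_le.2 h.le]
    have : v.val < u.val := h
    omega

def hz (j n : ℕ) : ZMod (2 * j + 3) :=
  ((if n ≤ 2 * j + 2 then n else if n % 2 = 0 then 2 * j + 2 else 2 * j + 1 : ℕ) : ZMod _)

theorem hz_adj {j k : ℕ} (hjk : j + 1 ≤ k) {u v : Fin (2 * k + 1)}
    (h : (SimpleGraph.cycleGraph (2 * k + 1)).Adj u v) :
    hz j u = hz j v + 1 ∨ hz j v = hz j u + 1 := by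
  have k1 : ∀ n, hz j (n + 1) = hz j n + 1 ∨ hz j n = hz j (n + 1) + 1 := fun n => by
    unfold hz
    rw [← Nat.cast_succ, ← Nat.cast_succ]
    have : (if n + 1 ≤ 2 * j + 2 then n + 1 else if (n + 1) % 2 = 0 then 2 * j + 2 else 2 * j + 1)
        = (if n ≤ 2 * j + 2 then n else if n % 2 = 0 then 2 * j + 2 else 2 * j + 1).succ ∨
      (if n ≤ 2 * j + 2 then n else if n % 2 = 0 then 2 * j + 2 else 2 * j + 1) =
        (if n + 1 ≤ 2 * j + 2 then n + 1 else if (n + 1) % 2 = 0 then 2 * j + 2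
          else 2 * j + 1).succ := by
      split_ifs <;> omega
    exact this.imp (congrArg _) (congrArg _)
  have k2 : hz j 0 = hz j (2 * k) + 1 := by
    unfold hz
    rw [← Nat.cast_succ, if_pos (Nat.zero_le _), show (if 2 * k ≤ 2 * j + 2 then 2 * k else
      if 2 * k % 2 = 0 then 2 * j + 2 else 2 * j + 1).succ = 2 * j + 3 by split_ifs <;> omega]
    simp
  rcases (cyc_adj (by omega) u v).1 h with h | h | ⟨h, h'⟩ | ⟨h, h'⟩
  · rw [h]; exact k1 _
  · rw [h]; exact (k1 _).symm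
  · rw [h, h']; exact Or.inl k2
  · rw [h, h']; exact Or.inr k2

theorem cyc1 {r k : ℕ} (hr : 1 ≤ r) (hk : 1 ≤ k) :
    IsCyc (myc (SimpleGraph.cycleGraph (2 * k + 1)) r) (2 * k + 1)
      fun i => some (i, ⟨0, hr⟩) := by
  refine ⟨by omega, fun a b h => congrArg Prod.fst (Option.some.inj h), fun i => ?_⟩
  have h : (SimpleGraph.cycleGraph (2 * k + 1)).Adj i (i + 1 : ZMod (2 * k + 1)) := by
    haveI : Fact (1 < 2 * k + 1) := ⟨by omega⟩
    rw [SimpleGraph.cycleGraph_adj']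
    right
    show ZMod.val (i + 1 - i : ZMod (2 * k + 1)) = 1
    rw [add_sub_cancel_left, ZMod.val_one]
  exact (SimpleGraph.fromRel_adj _ _ _).2 ⟨fun e => h.ne (by simpa using e),
    Or.inl ⟨h, Or.inl ⟨rfl, rfl⟩⟩⟩

def c2 (r k : ℕ) (hk : 1 ≤ k) (i : ZMod (2 * r + 1)) : Option (Fin (2 * k + 1) × Fin r) :=
  if h : i.val = 0 then none else some (⟨i.val % 2, by omega⟩,
    ⟨if i.val ≤ r then r - i.val else i.val - r - 1, by
      have := ZMod.val_lt i
      split_ifs <;> omega⟩)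

theorem cyc2 {r k : ℕ} (hr : 1 ≤ r) (hk : 1 ≤ k) :
    IsCyc (myc (SimpleGraph.cycleGraph (2 * k + 1)) r) (2 * r + 1) (c2 r k hk) := by
  haveI : Fact (1 < 2 * r + 1) := ⟨by omega⟩
  have hinj : Function.Injective (c2 r k hk) := fun a b h => by
    apply ZMod.val_injective
    unfold c2 at h
    by_cases ha : a.val = 0 <;> by_cases hb : b.val = 0
    · omega
    · simp [ha, hb] at h
    · simp [ha, hb] at h
    · simp only [ha, hb, dif_neg, not_false_eq_true, Option.some.injEq, Prod.mk.injEq,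
        Fin.mk.injEq] at h
      obtain ⟨h1, h2⟩ := h
      split_ifs at h2 <;> omega
  refine ⟨by omega, hinj, fun i => ?_⟩
  refine (SimpleGraph.fromRel_adj _ _ _).2 ⟨hinj.ne (by simp), ?_⟩
  have h1 := ZMod.val_lt i
  have h2 : (i + 1).val = if i.val = 2 * r then 0 else i.val + 1 := by
    rw [ZMod.val_add, ZMod.val_one]
    split_ifs with h
    · rw [h, Nat.mod_self]
    · exact Nat.mod_eq_of_lt (by omega)
  unfold c2
  by_cases ha : i.val = 0
  · rw [if_neg (by omega)] at h2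
    rw [dif_pos ha, dif_neg (by omega)]
    right
    show (if (i + 1).val ≤ r then r - (i + 1).val else (i + 1).val - r - 1) + 1 = r
    split_ifs <;> omega
  by_cases hb : i.val = 2 * r
  · rw [if_pos hb] at h2
    rw [dif_neg ha, dif_pos h2]
    left
    show (if i.val ≤ r then r - i.val else i.val - r - 1) + 1 = r
    split_ifs <;> omega
  · rw [if_neg hb] at h2
    rw [dif_neg ha, dif_neg (by omega)]
    simp only [cyc_adj hk, h2]
    split_ifs <;> omega

/-- `M_r (C_(2k+1))` has an orientation in which every shortest odd cycle is alternating. -/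
theorem result (r k : ℕ) (hr : 1 ≤ r) (hk : 1 ≤ k) :
    ∃ D, IsOrientation (myc (SimpleGraph.cycleGraph (2 * k + 1)) r) D ∧
      ∀ L c, IsShortestOdd (myc (SimpleGraph.cycleGraph (2 * k + 1)) r) L c → Alternating D c := by
  obtain ⟨j, hj⟩ : ∃ j, min r k = j + 1 := ⟨min r k - 1, by omega⟩
  obtain ⟨D, h1, h2⟩ := abstr (myc (SimpleGraph.cycleGraph (2 * k + 1)) r) (2 * j + 3)
    (fun s a => match a with
      | none => False
      | some x => (DD (hz j x.1) (min (r - 1 - x.2) j) s ↔ Odd (min (r - 1 - x.2) j))) (by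
    have top : ∀ x : Fin (2 * k + 1) × Fin r, x.2.val + 1 = r → ∀ t,
        ¬ (DD (hz j x.1) (min (r - 1 - x.2) j) t ↔ Odd (min (r - 1 - x.2) j)) → t = hz j x.1 := by
      intro x hx t ht
      rw [show min (r - 1 - x.2) j = 0 by omega] at ht
      obtain ⟨n, h1, h2⟩ : DD (hz j x.1) 0 t := by
        have : ¬ Odd 0 := by decide
        tauto
      obtain rfl : n = 0 := by omega
      simpa using h2
    have mid : ∀ x y : Fin (2 * k + 1) × Fin r,
        (SimpleGraph.cycleGraph (2 * k + 1)).Adj x.1 y.1 ∧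
          ((x.2.val = 0 ∧ y.2.val = 0) ∨ y.2.val = x.2.val + 1) → ∃ s, ∀ t,
        ((DD (hz j y.1) (min (r - 1 - y.2) j) t ↔ Odd (min (r - 1 - y.2) j)) ↔
          (DD (hz j x.1) (min (r - 1 - x.2) j) t ↔ Odd (min (r - 1 - x.2) j))) → t = s := by
      rintro x y ⟨h1, h2⟩
      have h3 := (hz_adj (j := j) (by omega) h1).symm
      have := y.2.2
      by_cases h4 : min (r - 1 - y.2) j = j
      · rw [h4, show min (r - 1 - x.2) j = j by omega]
        exact flat j _ _ h3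
      · rw [show min (r - 1 - x.2) j = min (r - 1 - y.2) j + 1 by omega]
        exact up _ _ h3 _
    intro a b hab
    obtain ⟨-, h⟩ := (SimpleGraph.fromRel_adj _ _ _).1 hab
    rcases a with _ | x <;> rcases b with _ | y
    · exact h.elim False.elim False.elim
    · exact ⟨_, fun t ht => top y (h.resolve_left id) t fun h' => ht.2 h'⟩
    · exact ⟨_, fun t ht => top x (h.resolve_right id) t fun h' => ht.1 h'⟩
    · rcases h with h | h
      · obtain ⟨s, hs⟩ := mid x y h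
        exact ⟨s, fun t ht => hs t ht.symm⟩
      · exact mid y x h)
  refine ⟨D, h1, fun L c hc => h2 L c hc.1 ?_ hc.2.1⟩
  have h3 := hc.2.2 _ _ (odd_two_mul_add_one k) (cyc1 hr hk)
  have h4 := hc.2.2 _ _ (odd_two_mul_add_one r) (cyc2 hr hk)
  omega

end Pool.Agent.Results.MP_118fda_co.Orientation
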